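import Mathlib
import Pool.Agent.Helper368.F96.Last
import Pool.Agent.Helper368.HT.R

open scoped ComplexConjugate
open Filter

namespace Pool.Agent.Results.MP_f96e05_an.HypInnerNotClosed

/-- The Taylor coefficients of an element of the Hardy space `H²`: a square summable sequence. -/
def InHardy (a : ℕ → ℂ) : Prop := Summable (fun n => ‖a n‖ ^ 2)

/-- The value at `z` of the analytic function with Taylor coefficients `a`. -/
noncomputable def val (a : ℕ → ℂ) (z : ℂ) : ℂ := ∑' n : ℕ, a n * z ^ n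

/-- The square of the norm of `H²`. -/
noncomputable def normSq (a : ℕ → ℂ) : ℝ := ∑' n : ℕ, ‖a n‖ ^ 2

/-- The inner product `⟨b, a⟩` of `H²`. -/
noncomputable def ip (b a : ℕ → ℂ) : ℂ := ∑' n : ℕ, b n * conj (a n)

/-- The numerical range `{⟨C_φ f, f⟩ : ‖f‖ = 1}` of the composition operator `C_φ f = f ∘ φ` on `H²`:
`a` are the Taylor coefficients of `f` and `b` those of `C_φ f`. -/
def numRange (φ : ℂ → ℂ) : Set ℂ :=
  {l | ∃ a b : ℕ → ℂ, InHardy a ∧ InHardy b ∧ normSq a = 1 ∧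
    (∀ z : ℂ, ‖z‖ < 1 → val b z = val a (φ z)) ∧ l = ip b a}

/-- `φ` is an analytic self-map of the open unit disc. -/
def IsSelfMap (φ : ℂ → ℂ) : Prop :=
  DifferentiableOn ℂ φ (Metric.ball 0 1) ∧ ∀ z : ℂ, ‖z‖ < 1 → ‖φ z‖ < 1

/-- `φ` is inner: at almost every point `e^{it}` of the unit circle the radial limit of `φ` exists and has
modulus `1`. -/
def IsInner (φ : ℂ → ℂ) : Prop :=
  ∀ᵐ t : ℝ, ∃ ζ : ℂ, ‖ζ‖ = 1 ∧
    Tendsto (fun r : ℝ => φ (r * Complex.exp (t * Complex.I))) (nhdsWithin 1 (Set.Iio 1)) (nhds ζ)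

/-- `φ` is of hyperbolic type: there is a point `ω` of the unit circle with `φ(ω) = ω` and angular
derivative `φ'(ω) = α < 1`, both as limits along the radius. (By the Julia and Denjoy–Wolff theorems `ω` is
then the Denjoy–Wolff point of `φ`, and `φ` has no fixed point in the open disc.) -/
def IsHyperbolicType (φ : ℂ → ℂ) : Prop :=
  ∃ (ω : ℂ) (α : ℝ), ‖ω‖ = 1 ∧ α < 1 ∧
    Tendsto (fun r : ℝ => φ (r * ω)) (nhdsWithin 1 (Set.Iio 1)) (nhds ω) ∧
    Tendsto (fun r : ℝ => (φ (r * ω) - ω) / (r * ω - ω)) (nhdsWithin 1 (Set.Iio 1)) (nhds (α : ℂ))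

/-- `φ` is (on the unit disc) a disc automorphism `c (z - p) / (1 - p̄ z)`, `|c| = 1`, `|p| < 1`. -/
def IsDiscAutomorphism (φ : ℂ → ℂ) : Prop :=
  ∃ c p : ℂ, ‖c‖ = 1 ∧ ‖p‖ < 1 ∧ ∀ z : ℂ, ‖z‖ < 1 → φ z = c * ((z - p) / (1 - conj p * z))

lemma mem_of_inHardy {a : ℕ → ℂ} (ha : InHardy a) : Memℓp a 2 := by
  rw [memℓp_gen_iff (by norm_num)]
  simpa [InHardy] using ha

lemma inHardy_coe (f : F96.H2) : InHardy f := by
  have h := (memℓp_gen_iff (p := 2) (by norm_num)).1 (lp.memℓp f)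
  simpa [InHardy] using h

lemma normSq_coe (f : F96.H2) : normSq f = ‖f‖ ^ 2 := by
  have h := lp.norm_rpow_eq_tsum (p := 2) (by norm_num) f
  simpa [normSq] using h.symm

lemma ip_coe (f g : F96.H2) : ip g f = inner ℂ f g := by
  rw [lp.inner_eq_tsum]
  unfold ip
  congr 1

lemma mem_numRange_iff {φ : ℂ → ℂ} {C : F96.H2 →L[ℂ] F96.H2}
    (hC : ∀ f : F96.H2, ∀ z : ℂ, ‖z‖ < 1 → F96.ev (C f) z = F96.ev f (φ z)) (l : ℂ) :
    l ∈ numRange φ ↔ ∃ f : F96.H2, ‖f‖ = 1 ∧ l = inner ℂ f (C f) := by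
  constructor
  · rintro ⟨a, b, ha, hb, hn, hab, hl⟩
    set f : F96.H2 := ⟨a, mem_of_inHardy ha⟩ with hf
    set g : F96.H2 := ⟨b, mem_of_inHardy hb⟩ with hg
    have h1 : g = C f := by
      apply F96.ev_injective
      intro z hz
      rw [hC f z hz]
      exact hab z hz
    refine ⟨f, ?_, ?_⟩
    · have h2 : ‖f‖ ^ 2 = 1 := by
        rw [← normSq_coe]
        exact hn
      have h3 := norm_nonneg f
      nlinarith
    · rw [← h1, hl, ← ip_coe]
  · rintro ⟨f, hf, hl⟩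
    refine ⟨f, C f, inHardy_coe f, inHardy_coe _, ?_, ?_, ?_⟩
    · rw [normSq_coe, hf]
      norm_num
    · intro z hz
      exact hC f z hz
    · rw [hl, ip_coe]

/-- From non-attainment for the operator to the statement about the numerical range. -/
lemma conclude {φ : ℂ → ℂ} {C : F96.H2 →L[ℂ] F96.H2}
    (hC : ∀ f : F96.H2, ∀ z : ℂ, ‖z‖ < 1 → F96.ev (C f) z = F96.ev f (φ z))
    (hno : ∀ w : ℝ, (∀ x, ‖(inner ℂ x (C x) : ℂ)‖ ≤ w * ‖x‖ ^ 2) → ∀ f : F96.H2, ‖f‖ = 1 →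
      ‖(inner ℂ f (C f) : ℂ)‖ = w → False) :
    (∀ l ∈ numRange φ, ∃ l' ∈ numRange φ, ‖l‖ < ‖l'‖) ∧ ¬ IsClosed (numRange φ) := by
  have hmem := mem_numRange_iff hC
  have h1 : ∀ l ∈ numRange φ, ∃ l' ∈ numRange φ, ‖l‖ < ‖l'‖ := by
    intro l hl
    by_contra hcon
    push Not at hcon
    obtain ⟨f, hf1, rfl⟩ := (hmem l).1 hl
    apply hno ‖(inner ℂ f (C f) : ℂ)‖ ?_ f hf1 rfl
    intro x
    by_cases hx : x = 0
    · rw [hx]
      simp
    · have hx' : ‖x‖ ≠ 0 := norm_ne_zero_iff.2 hx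
      have h2 := hcon (inner ℂ ((‖x‖⁻¹ : ℂ) • x) (C ((‖x‖⁻¹ : ℂ) • x))) ((hmem _).2 ⟨_, by
        rw [norm_smul, norm_inv, Complex.norm_real, norm_norm, inv_mul_cancel₀ hx'], rfl⟩)
      rw [map_smul, inner_smul_left, inner_smul_right, norm_mul, norm_mul, RCLike.norm_conj,
        norm_inv, Complex.norm_real, norm_norm] at h2
      have hpos : 0 < ‖x‖ := norm_pos_iff.2 hx
      have h3 : ‖x‖⁻¹ * (‖x‖⁻¹ * ‖(inner ℂ x (C x) : ℂ)‖) = ‖(inner ℂ x (C x) : ℂ)‖ / ‖x‖ ^ 2 := by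
        field_simp
      rw [h3, div_le_iff₀ (by positivity)] at h2
      exact h2
  refine ⟨h1, ?_⟩
  intro hcl
  have hbdd : Bornology.IsBounded (numRange φ) := by
    rw [isBounded_iff_forall_norm_le]
    refine ⟨‖C‖, ?_⟩
    intro l hl
    obtain ⟨f, hf1, rfl⟩ := (hmem l).1 hl
    calc ‖(inner ℂ f (C f) : ℂ)‖ ≤ ‖f‖ * ‖C f‖ := norm_inner_le_norm _ _
      _ ≤ ‖f‖ * (‖C‖ * ‖f‖) := by
        apply mul_le_mul_of_nonneg_left (C.le_opNorm f) (norm_nonneg _)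
      _ = ‖C‖ := by rw [hf1]; ring
  have hne : (numRange φ).Nonempty := by
    have h0 : ‖F96.kz (0 : ℂ)‖ = 1 := by
      have h2 := F96.norm_kz_sq (z := 0) (by simp)
      rw [norm_zero] at h2
      have h3 := norm_nonneg (F96.kz (0 : ℂ))
      have h4 : ‖F96.kz (0 : ℂ)‖ ^ 2 = 1 := by rw [h2]; norm_num
      nlinarith
    exact ⟨_, (hmem _).2 ⟨F96.kz 0, h0, rfl⟩⟩
  have hcomp : IsCompact (numRange φ) := Metric.isCompact_of_isClosed_isBounded hcl hbdd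
  obtain ⟨l, hl, hmax⟩ := hcomp.exists_isMaxOn hne continuous_norm.continuousOn
  obtain ⟨l', hl', hlt⟩ := h1 l hl
  exact absurd (hmax hl') (not_le.2 hlt)

/-- Let `φ` be an inner function of hyperbolic type, or a disc automorphism without fixed point in the open
disc (this adds the parabolic automorphisms). Then the numerical range of the composition operator `C_φ` on
`H²` has no element of maximal modulus, and it is not closed. -/
theorem result (φ : ℂ → ℂ)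
    (hφ : (IsSelfMap φ ∧ IsInner φ ∧ IsHyperbolicType φ) ∨
      (IsDiscAutomorphism φ ∧ ∀ z : ℂ, ‖z‖ < 1 → φ z ≠ z)) :
    (∀ l ∈ numRange φ, ∃ l' ∈ numRange φ, ‖l‖ < ‖l'‖) ∧ ¬ IsClosed (numRange φ) := by
  rcases hφ with ⟨hself, hin, ω, α, hω, hα, h1, h2⟩ | ⟨⟨c, p, hc, hp, hφ⟩, hfix⟩
  · obtain ⟨τ, b, hb, hbφ⟩ := HT.exists_inner_bd φ hself hin
    obtain ⟨CL, -, -, C, -, hC⟩ := HT.exists_CL hb
    have hC' : ∀ f : F96.H2, ∀ z : ℂ, ‖z‖ < 1 → F96.ev (C f) z = F96.ev f (φ z) := by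
      intro f z hz
      rw [hC f z hz, hbφ z hz]
    have h2' : Tendsto (fun r : ℝ => (φ (r * ω) - ω) / ((r - 1) * ω)) (nhdsWithin 1 (Set.Iio 1))
        (nhds (α : ℂ)) := by
      refine h2.congr ?_
      intro r
      congr 1
      ring
    have hJ : ∀ z : ℂ, ‖z‖ < 1 →
        ‖ω - F96.ev b z‖ ^ 2 / (1 - ‖F96.ev b z‖ ^ 2) ≤ α * (‖ω - z‖ ^ 2 / (1 - ‖z‖ ^ 2)) := by
      intro z hz
      rw [hbφ z hz]
      exact HT.julia hself hω h1 h2' hz
    exact conclude hC' fun w hw f hf1 hf => HT.no_max hb hω hα hJ C hC hw f hf1 hf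
  · have hfix' : ∀ z : ℂ, ‖z‖ < 1 → c * ((z - p) / (1 - conj p * z)) ≠ z := by
      intro z hz
      rw [← hφ z hz]
      exact hfix z hz
    obtain ⟨C, hC⟩ := F96.exists_comp c p hc hp
    have hC' : ∀ f : F96.H2, ∀ z : ℂ, ‖z‖ < 1 → F96.ev (C f) z = F96.ev f (φ z) := by
      intro f z hz
      rw [hC f z hz, hφ z hz]
    exact conclude hC' fun w hw f hf1 hf => F96.not_attained c p hc hp hfix' C hC w hw f hf1 hf

end Pool.Agent.Results.MP_f96e05_an.HypInnerNotClosed
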